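import Mathlib
import Pool.Agent.H77.TF.Det
import Pool.Agent.H77.TF.Moo

/-!
# Module MDT: the Moore determinant
-/

set_option autoImplicit false

open MvPolynomial Module

namespace Pool.Agent.H22.TF

open Pool.Agent.H77.TF

theorem lin_hom {K : Type} [Field K] {l : ℕ} (a : Fin l → K) : (lin a).IsHomogeneous 1 := by
  unfold lin
  exact IsHomogeneous.sum _ _ _ fun i _ => isHomogeneous_C_mul_X _ _

/-- products of pairwise non-proportional forms -/
theorem prod_lin_dvd {K : Type} [Field K] {l : ℕ} {ν : Type} (s : Finset ν) (A : ν → Fin l → K)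
    (h0 : ∀ i, A i ≠ 0) (h1 : ∀ i j, i ≠ j → ∀ c : K, A i ≠ c • A j)
    {f : MvPolynomial (Fin l) K} (hf : ∀ i ∈ s, lin (A i) ∣ f) : ∏ i ∈ s, lin (A i) ∣ f := by
  refine Finset.prod_dvd_of_isRelPrime (fun i _ j _ hij => ?_) hf
  have hp := (pri K l (A i) (h0 i)).1
  change IsRelPrime (lin (A i)) (lin (A j))
  rw [hp.irreducible.isRelPrime_iff_not_dvd]
  intro hd
  obtain ⟨c, hc⟩ := (pri K l (A i) (h0 i)).2 _ hd
  exact h1 j i (Ne.symm hij) c hc

/-- a polynomial divisible by a homogeneous polynomial of the same degree -/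
theorem eq_C_mul {K : Type} [Field K] {l n : ℕ} {f g : MvPolynomial (Fin l) K} (hf : f ≠ 0)
    (hfn : f.IsHomogeneous n) (hgn : g.IsHomogeneous n) (h : g ∣ f) :
    ∃ c : K, c ≠ 0 ∧ f = C c * g := by
  obtain ⟨r, rfl⟩ := h
  have hg0 : g ≠ 0 := left_ne_zero_of_mul hf
  have hr0 : r ≠ 0 := right_ne_zero_of_mul hf
  have h1 := totalDegree_mul_of_isDomain hg0 hr0
  rw [hfn.totalDegree hf, hgn.totalDegree hg0] at h1
  have h2 : r.totalDegree = 0 := by omega
  rw [totalDegree_eq_zero_iff_eq_C] at h2
  refine ⟨r.coeff 0, fun h3 => hr0 (by rw [h2, h3, C_0]), ?_⟩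
  rw [← h2, mul_comm]

theorem moore_ne_zero (K : Type) [Field K] [Fintype K] (l : ℕ) :
    (Matrix.of fun k i : Fin l => frob K l k i).det ≠ 0 := by
  classical
  intro h0
  let S := MvPolynomial (Fin l) K
  let F := FractionRing S
  have h1 : (Matrix.of fun k i : Fin l => algebraMap S F (frob K l k i)).det = 0 := by
    have h2 := congrArg (algebraMap S F) h0
    rw [RingHom.map_det, map_zero] at h2
    exact h2
  rw [← Matrix.exists_vecMul_eq_zero_iff] at h1
  obtain ⟨c, hc0, hc⟩ := h1
  have h3 := moo K F l l (fun i => algebraMap S F (X i)) c hc0 (fun i => by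
    have h4 := congrFun hc i
    rw [Matrix.vecMul, dotProduct] at h4
    simp only [Matrix.of_apply, frob, map_pow, Pi.zero_apply] at h4
    exact h4)
  have h5 : LinearIndependent K fun i : Fin l => algebraMap S F (X i) := by
    rw [Fintype.linearIndependent_iff]
    intro g hg i
    have h6 : algebraMap S F (lin g) = 0 := by
      rw [← hg]
      unfold lin
      rw [map_sum]
      refine Finset.sum_congr rfl fun j _ => ?_
      rw [← smul_eq_C_mul, Algebra.smul_def, map_mul, ← IsScalarTower.algebraMap_apply K S F,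
        ← Algebra.smul_def]
    have h7 : lin g = 0 := (map_eq_zero_iff _ (IsFractionRing.injective S F)).1 h6
    by_contra hi
    exact lin_ne_zero (fun h => hi (congrFun h i)) h7
  rw [finrank_span_eq_card h5, Fintype.card_fin] at h3
  exact lt_irrefl _ h3

theorem moore_hom (K : Type) [Field K] [Fintype K] (l : ℕ) :
    (Matrix.of fun k i : Fin l => frob K l k i).det.IsHomogeneous
      (∑ k ∈ Finset.range l, Fintype.card K ^ k) := by
  classical
  rw [Matrix.det_apply']
  refine IsHomogeneous.sum _ _ _ fun σ _ => ?_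
  have h1 : (∏ i, Matrix.of (fun k i : Fin l => frob K l k i) (σ i) i).IsHomogeneous
      (∑ k ∈ Finset.range l, Fintype.card K ^ k) := by
    have h2 : (∏ i, Matrix.of (fun k i : Fin l => frob K l k i) (σ i) i).IsHomogeneous
        (∑ i : Fin l, 1 * Fintype.card K ^ ((σ i : Fin l) : ℕ)) :=
      IsHomogeneous.prod _ _ _ fun i _ => (isHomogeneous_X K i).pow _
    have h3 : ∑ i : Fin l, 1 * Fintype.card K ^ ((σ i : Fin l) : ℕ) =
        ∑ k ∈ Finset.range l, Fintype.card K ^ k := by
      rw [Finset.sum_range]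
      simp only [one_mul]
      exact Equiv.sum_comp σ fun k : Fin l => Fintype.card K ^ (k : ℕ)
    rwa [h3] at h2
  have h4 : (((Equiv.Perm.sign σ : ℤ) : MvPolynomial (Fin l) K)) = C ((Equiv.Perm.sign σ : ℤ) : K) := by
    rw [map_intCast]
  rw [h4]
  exact h1.C_mul _

/-- **Module MDT.** -/
theorem mdt : S_MDT := by
  classical
  intro K _ _ l
  have : Fintype (Projectivization K (Fin l → K)) := Fintype.ofFinite _
  rw [finprod_eq_prod_of_fintype]
  have hne : ∀ p : Projectivization K (Fin l → K), p.rep ≠ 0 := fun p => p.rep_nonzero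
  have hsim : ∀ p p' : Projectivization K (Fin l → K), p ≠ p' → ∀ c : K, p.rep ≠ c • p'.rep := by
    intro p p' hpp c hc
    apply hpp
    rw [← p.mk_rep, ← p'.mk_rep, Projectivization.mk_eq_mk_iff']
    exact ⟨c, hc.symm⟩
  have hdvd : ∏ p : Projectivization K (Fin l → K), lin p.rep ∣
      (Matrix.of fun k i : Fin l => frob K l k i).det :=
    prod_lin_dvd _ (fun p : Projectivization K (Fin l → K) => p.rep) hne hsim fun p _ =>
      det K l p.rep (hne p) (fun k : Fin l => frob K l k) fun k => evl_frob_dvd _ _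
  have hdeg : (∏ p : Projectivization K (Fin l → K), lin p.rep).IsHomogeneous
      (∑ k ∈ Finset.range l, Fintype.card K ^ k) := by
    have h1 : (∏ p : Projectivization K (Fin l → K), lin p.rep).IsHomogeneous
        (∑ _p : Projectivization K (Fin l → K), 1) :=
      IsHomogeneous.prod _ _ _ fun p _ => lin_hom _
    have h2 := Projectivization.card_of_finrank K (Fin l → K) (Module.finrank_fin_fun (n := l) K)
    rw [Nat.card_eq_fintype_card, Nat.card_eq_fintype_card] at h2
    rw [Finset.sum_const, Finset.card_univ, smul_eq_mul, mul_one, h2] at h1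
    exact h1
  exact eq_C_mul (moore_ne_zero K l) (moore_hom K l) hdeg hdvd

end Pool.Agent.H22.TF
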