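import Mathlib
import Pool.Agent.H77.TF.Stm

/-!
# Module NEC: a free arrangement with a large exponent is blocking
-/

set_option autoImplicit false

open MvPolynomial Module

namespace Pool.Agent.H22.TF

open Pool.Agent.H77.TF

theorem finrank_span {K : Type} [Field K] {F : Type} [Field F] [Algebra K F] {l : ℕ}
    (W : Submodule K (Fin l → K)) (x : Fin l → F)
    (hx : ∀ a : Fin l → K, ∑ i, a i • x i = 0 ↔ a ∈ W) :
    finrank K (Submodule.span K (Set.range x)) + finrank K W = l := by
  have h1 : LinearMap.ker (Fintype.linearCombination K x) = W := by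
    ext a
    rw [LinearMap.mem_ker, Fintype.linearCombination_apply, hx]
  have h2 : LinearMap.range (Fintype.linearCombination K x) = Submodule.span K (Set.range x) :=
    Fintype.range_linearCombination K x
  have h3 := LinearMap.finrank_range_add_finrank_ker (Fintype.linearCombination K x)
  rw [h1, h2, Module.finrank_fin_fun] at h3
  exact h3

/-- the Frobenius relation -/
theorem exists_rel {K : Type} [Field K] [Fintype K] {F : Type} [Field F] [Algebra K F] {l r : ℕ}
    (x : Fin l → F) (hr : finrank K (Submodule.span K (Set.range x)) = r) :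
    ∃ d : Fin (r + 1) → F, d ≠ 0 ∧
      ∀ i, ∑ k, d k * x i ^ (Fintype.card K ^ (k : ℕ)) = 0 := by
  have : Module.Finite K (Submodule.span K (Set.range x)) :=
    Module.Finite.span_of_finite K (Set.finite_range x)
  let B := Module.finBasisOfFinrankEq K (Submodule.span K (Set.range x)) hr
  let v : Fin (r + 1) → (Fin r → F) := fun k j => ((B j : F)) ^ (Fintype.card K ^ (k : ℕ))
  have h1 : ¬ LinearIndependent F v := by
    intro h
    have h2 := h.fintype_card_le_finrank
    rw [Fintype.card_fin, Module.finrank_fin_fun] at h2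
    omega
  rw [Fintype.not_linearIndependent_iff] at h1
  obtain ⟨d, hd, k0, hk0⟩ := h1
  refine ⟨d, fun h => hk0 (congrFun h k0), fun i => ?_⟩
  have hxi : x i ∈ Submodule.span K (Set.range x) := Submodule.subset_span ⟨i, rfl⟩
  obtain ⟨m, h3⟩ : ∃ m : Fin r → K, x i = ∑ j, m j • (B j : F) := by
    refine ⟨fun j => B.repr ⟨x i, hxi⟩ j, ?_⟩
    have h4 := congrArg Subtype.val (B.sum_repr ⟨x i, hxi⟩)
    rw [AddSubmonoidClass.coe_finsetSum] at h4
    exact h4.symm
  have h5 : ∀ k : ℕ, x i ^ (Fintype.card K ^ k) =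
      ∑ j, m j • ((B j : F)) ^ (Fintype.card K ^ k) := by
    intro k
    have h6 : ∀ y : F, (FiniteField.frobeniusAlgHom K F ^ k) y = y ^ (Fintype.card K ^ k) := by
      intro y
      rw [AlgHom.coe_pow, FiniteField.coe_frobeniusAlgHom, pow_iterate]
    rw [← h6, h3, map_sum]
    refine Finset.sum_congr rfl fun j _ => ?_
    rw [map_smul, h6]
  simp only [h5, Finset.mul_sum]
  rw [Finset.sum_comm]
  refine Finset.sum_eq_zero fun j _ => ?_
  have h7 := congrFun hd j
  rw [Finset.sum_apply] at h7
  have h8 : ∀ k, d k * m j • ((B j : F)) ^ (Fintype.card K ^ (k : ℕ)) =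
      m j • ((d k • v k) j) := by
    intro k
    rw [mul_smul_comm]
    rfl
  simp only [h8]
  rw [← Finset.smul_sum, h7]
  exact smul_zero _

theorem prod_dvd_evl {K : Type} [Field K] {l : ℕ} {ν : Type} [Fintype ν] (A : ν → Fin l → K)
    (i : Fin l) : Pi.single i (∏ k, lin (A k)) ∈ LD A := by
  intro k
  have h1 : evl (A k) (Pi.single i (∏ k, lin (A k))) = C (A k i) * ∏ k, lin (A k) := by
    unfold evl
    rw [Finset.sum_eq_single i]
    · rw [Pi.single_eq_same]
    · intro j _ hj
      rw [Pi.single_eq_of_ne hj, mul_zero]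
    · exact fun h => absurd (Finset.mem_univ _) h
  rw [h1]
  exact dvd_mul_of_dvd_right (Finset.dvd_prod_of_mem _ (Finset.mem_univ k)) _

/-- the values of a basis at a point outside the hyperplanes are linearly independent -/
theorem indep_eval {K : Type} [Field K] {l : ℕ} {ν : Type} [Fintype ν] (A : ν → Fin l → K)
    (b : Basis (Fin l) (MvPolynomial (Fin l) K) (LD A)) {F : Type} [Field F] [Algebra K F]
    (x : Fin l → F) (hx : ∀ k, ∑ i, A k i • x i ≠ 0) (v : Fin l → F)
    (hv : ∀ i, ∑ j, v j * aeval x ((b j : Fin l → MvPolynomial (Fin l) K) i) = 0) : v = 0 := by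
  classical
  by_contra hv0
  have hdet : (Matrix.of fun j i => aeval x ((b j : Fin l → MvPolynomial (Fin l) K) i)).det = 0 := by
    rw [← Matrix.exists_vecMul_eq_zero_iff]
    exact ⟨v, hv0, funext fun i => hv i⟩
  let R : Matrix (Fin l) (Fin l) F := Matrix.of fun i j =>
    aeval x (b.repr ⟨_, prod_dvd_evl A i⟩ j)
  have h1 : R * (Matrix.of fun j i => aeval x ((b j : Fin l → MvPolynomial (Fin l) K) i)) =
      (∏ k, ∑ i, A k i • x i) • (1 : Matrix (Fin l) (Fin l) F) := by
    ext i i'
    rw [Matrix.mul_apply]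
    have h2 := congrArg (fun w : LD A => aeval x ((w : Fin l → MvPolynomial (Fin l) K) i'))
      (b.sum_repr ⟨_, prod_dvd_evl A i⟩)
    simp only [] at h2
    rw [AddSubmonoidClass.coe_finsetSum, Finset.sum_apply, map_sum] at h2
    have h3 : ∀ j, aeval x (((b.repr ⟨_, prod_dvd_evl A i⟩ j • b j : LD A) :
        Fin l → MvPolynomial (Fin l) K) i') =
        R i j * (Matrix.of fun j i => aeval x ((b j : Fin l → MvPolynomial (Fin l) K) i)) j i' := by
      intro j
      change aeval x (b.repr ⟨_, prod_dvd_evl A i⟩ j * (b j : Fin l → MvPolynomial (Fin l) K) i') = _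
      rw [map_mul]
      rfl
    simp only [h3] at h2
    rw [h2]
    rw [Matrix.smul_apply, smul_eq_mul]
    have hlin : ∀ k, aeval x (lin (A k)) = ∑ i, A k i • x i := by
      intro k
      unfold lin
      rw [map_sum]
      refine Finset.sum_congr rfl fun j _ => ?_
      rw [map_mul, aeval_C, aeval_X, Algebra.smul_def]
    by_cases h : i = i'
    · subst h
      rw [Matrix.one_apply_eq, mul_one, Pi.single_eq_same, map_prod]
      exact Finset.prod_congr rfl fun k _ => hlin k
    · rw [Matrix.one_apply_ne h, mul_zero, Pi.single_eq_of_ne (Ne.symm h), map_zero]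
  have h4 := congrArg Matrix.det h1
  rw [Matrix.det_mul, hdet, mul_zero, Matrix.det_smul, Matrix.det_one, mul_one] at h4
  exact pow_ne_zero _ (Finset.prod_ne_zero_iff.2 fun k _ => hx k) h4.symm

/-- **Module NEC.** -/
theorem nec (hMOO : S_MOO) (hPNT : S_PNT) (hCFS : S_CFS) (hUNI : S_UNI) : S_NEC := by
  classical
  intro K _ _ l ν _ A e j₀ hl hA he hj
  obtain ⟨r, rfl⟩ : ∃ r, l = r + 2 := ⟨l - 2, by omega⟩
  intro W hW
  by_contra hcon
  push Not at hcon
  obtain ⟨F, _, _, x, hx⟩ := hPNT K (r + 2) W
  obtain ⟨b, hb⟩ := he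
  obtain ⟨c, hc1, hc2, hc3⟩ := hCFS K (r + 2) ν A e b hb
  have hfr : finrank K (Submodule.span K (Set.range x)) = r := by
    have := finrank_span W x hx
    omega
  obtain ⟨d, hd0, hd⟩ := exists_rel x hfr
  have hlast : d (Fin.last r) ≠ 0 := by
    intro h0
    have h1 : (fun k : Fin r => d (Fin.castSucc k)) ≠ 0 := by
      intro h
      apply hd0
      funext k
      refine Fin.lastCases ?_ (fun k => ?_) k
      · exact h0
      · exact congrFun h k
    have h2 := hMOO K F (r + 2) r x (fun k => d (Fin.castSucc k)) h1 (fun i => by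
      have h3 := hd i
      rw [Fin.sum_univ_castSucc, h0, zero_mul, add_zero] at h3
      simpa using h3)
    omega
  have hAx : ∀ k, ∑ i, A k i • x i ≠ 0 := fun k h => hcon k ((hx _).1 h)
  -- the coefficients
  have hrel : ∀ j, ∑ k : Fin (r + 1), d k * aeval x (c k j) = 0 := by
    have h1 : (fun j => ∑ k : Fin (r + 1), d k * aeval x (c k j)) = 0 := by
      refine indep_eval A b x hAx _ fun i => ?_
      have h2 : ∀ k : Fin (r + 1), x i ^ (Fintype.card K ^ (k : ℕ)) =
          ∑ j, aeval x (c k j) * aeval x ((b j : Fin (r + 2) → MvPolynomial (Fin (r + 2)) K) i) := by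
        intro k
        have h3 := congrArg (fun w : Fin (r + 2) → MvPolynomial (Fin (r + 2)) K => aeval x (w i))
          (hc1 k)
        simp only [frob, map_pow, aeval_X] at h3
        rw [h3, Finset.sum_apply, map_sum]
        refine Finset.sum_congr rfl fun j _ => ?_
        rw [Pi.smul_apply, smul_eq_mul, map_mul]
      have h4 := hd i
      simp only [h2, Finset.mul_sum] at h4
      rw [Finset.sum_comm] at h4
      rw [← h4]
      refine Finset.sum_congr rfl fun j _ => ?_
      rw [Finset.sum_mul]
      exact Finset.sum_congr rfl fun k _ => by ring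
    exact fun j => congrFun h1 j
  have hq : 2 ≤ Fintype.card K := Fintype.one_lt_card
  have hzero : ∀ k : Fin (r + 1), c k j₀ = 0 := by
    have hsmall : ∀ k : ℕ, k < r → c k j₀ = 0 := by
      intro k hk
      refine hc2 k j₀ (lt_of_lt_of_le ?_ hj)
      exact Nat.pow_lt_pow_right (by omega) (by omega)
    have hr' : c r j₀ = 0 := by
      have h1 := hrel j₀
      rw [Fin.sum_univ_castSucc] at h1
      have h2 : ∑ k : Fin r, d (Fin.castSucc k) * aeval x (c (Fin.castSucc k : Fin (r + 1)) j₀) = 0 :=
        Finset.sum_eq_zero fun k _ => by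
          rw [Fin.val_castSucc, hsmall k k.isLt, map_zero, mul_zero]
      rw [h2, zero_add, Fin.val_last] at h1
      have h3 := (mul_eq_zero.1 h1).resolve_left hlast
      have hj' : Fintype.card K ^ r ≤ e j₀ := by simpa using hj
      rcases hj'.lt_or_eq with h4 | h4
      · exact hc2 r j₀ h4
      · obtain ⟨κ, hκ⟩ := hc3 r j₀ h4
        rw [hκ, aeval_C, map_eq_zero] at h3
        rw [hκ, h3, map_zero]
    intro k
    rcases Nat.lt_or_ge (k : ℕ) r with h | h
    · exact hsmall k h
    · have h5 : (k : ℕ) = r := by omega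
      rw [h5]
      exact hr'
  have hunit := hUNI K (r + 1)
    (fun j => (b (j₀.succAbove j) : Fin (r + 2) → MvPolynomial (Fin (r + 2)) K))
    (fun k j => c k (j₀.succAbove j)) (fun k => by
      have h1 := hc1 k
      rw [Fin.sum_univ_succAbove _ j₀, hzero k, zero_smul, zero_add] at h1
      exact h1)
  have hdet : (Matrix.of fun (k j : Fin (r + 1)) => aeval x (c k (j₀.succAbove j))).det = 0 := by
    rw [← Matrix.exists_vecMul_eq_zero_iff]
    exact ⟨d, hd0, funext fun j => hrel _⟩
  have h1 : aeval x (Matrix.of fun (k j : Fin (r + 1)) => c k (j₀.succAbove j)).det = 0 := by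
    rw [← hdet, AlgHom.map_det]
    rfl
  exact (hunit.map (aeval x)).ne_zero h1

end Pool.Agent.H22.TF
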