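import Mathlib
import Pool.Agent.H77.TF.Stm2
import Pool.Agent.H77.TF.Det
import Pool.Agent.H77.TF.Moo
import Pool.Agent.H22.TF.Nec
import Pool.Agent.H22.TF.Mdt
import Pool.Agent.H27.TF.Cnt
import Pool.Agent.H64.TF.CFS
import Pool.Agent.H83.TF.Pnt
import Pool.Agent.H39.TF.Uni

/-!
# Module NC2: a free arrangement with an exponent `q ^ (l - 2) - 1`
-/

set_option autoImplicit false

open MvPolynomial Module

namespace Pool.Agent.H22.TF

open Pool.Agent.H77.TF

/-- homogeneous coefficients of the Frobenius fields -/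
theorem cfs_hom {K : Type} [Field K] [Fintype K] {l : ℕ} {ν : Type} (A : ν → Fin l → K)
    (e : Fin l → ℕ) (b : Basis (Fin l) (MvPolynomial (Fin l) K) (LD A))
    (hb : ∀ j i, ((b j : Fin l → MvPolynomial (Fin l) K) i).IsHomogeneous (e j)) :
    ∃ c : ℕ → Fin l → MvPolynomial (Fin l) K,
      (∀ k, frob K l k = ∑ j, c k j • (b j : Fin l → MvPolynomial (Fin l) K)) ∧
      (∀ k j, Fintype.card K ^ k < e j → c k j = 0) ∧
      ∀ k j, (c k j).IsHomogeneous (Fintype.card K ^ k - e j) := by
  classical
  refine ⟨fun k j => if e j ≤ Fintype.card K ^ k then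
    homogeneousComponent (Fintype.card K ^ k - e j)
      (b.repr ⟨frob K l k, H64.TF.frob_mem A k⟩ j) else 0,
    fun k => ?_, fun k j h => if_neg (by omega), fun k j => ?_⟩
  · have h1 : frob K l k = ∑ j, b.repr ⟨frob K l k, H64.TF.frob_mem A k⟩ j •
        (b j : Fin l → MvPolynomial (Fin l) K) := by
      have h2 := congrArg Subtype.val (b.sum_repr ⟨frob K l k, H64.TF.frob_mem A k⟩)
      refine h2.symm.trans ?_
      rw [Submodule.coe_sum]
      rfl
    funext i
    have h2 := congrArg (homogeneousComponent (Fintype.card K ^ k)) (congrFun h1 i)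
    have h3 : homogeneousComponent (Fintype.card K ^ k) (frob K l k i) = frob K l k i := by
      rw [homogeneousComponent_of_mem (n := Fintype.card K ^ k), if_pos rfl]
      unfold frob
      exact isHomogeneous_X_pow i _
    rw [h3, Finset.sum_apply, map_sum] at h2
    rw [h2, Finset.sum_apply]
    refine Finset.sum_congr rfl fun j _ => ?_
    rw [Pi.smul_apply, Pi.smul_apply, smul_eq_mul, smul_eq_mul]
    exact H64.TF.comp_mul _ _ (hb j i)
  · simp only
    split_ifs with h
    · exact homogeneousComponent_isHomogeneous _ _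
    · exact isHomogeneous_zero _ _ _

/-- the number of the hyperplanes is at most the sum of the exponents -/
theorem card_le {K : Type} [Field K] {l : ℕ} {ν : Type} [Fintype ν] (A : ν → Fin l → K)
    (hA : Simple A) (e : Fin l → ℕ) (b : Basis (Fin l) (MvPolynomial (Fin l) K) (LD A))
    (hb : ∀ j i, ((b j : Fin l → MvPolynomial (Fin l) K) i).IsHomogeneous (e j)) :
    Fintype.card ν ≤ ∑ j, e j := by
  classical
  have hlin : ∀ i, lin (A i) ≠ 0 := fun i => (pri K l (A i) (hA.1 i)).1.ne_zero
  have hprod : ∏ i, lin (A i) ≠ 0 := Finset.prod_ne_zero_iff.2 fun i _ => hlin i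
  have hdb := H27.TF.det_basis A hprod b
  obtain ⟨m, hm⟩ : ∏ i, lin (A i) ∣
      (Matrix.of fun j => (b j : Fin l → MvPolynomial (Fin l) K)).det :=
    prod_lin_dvd Finset.univ A hA.1 hA.2 fun i _ => det K l (A i) (hA.1 i) _ fun k => (b k).2 i
  have h1 := (H27.TF.det_hom hb).totalDegree hdb
  have h2 : (∏ i, lin (A i)).totalDegree = Fintype.card ν := by
    have h3 := IsHomogeneous.prod Finset.univ (fun i => lin (A i)) (fun _ => 1)
      fun i _ => lin_hom (A i)
    rw [h3.totalDegree hprod]
    simp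
  have hm0 : m ≠ 0 := by
    rintro rfl
    rw [mul_zero] at hm
    exact hdb hm
  rw [hm, totalDegree_mul_of_isDomain hprod hm0, h2] at h1
  omega

/-- relations between the values of the coefficients give relations between the Frobenius powers,
and conversely -/
theorem rel_iff {K : Type} [Field K] [Fintype K] {l : ℕ} {ν : Type} (A : ν → Fin l → K)
    (b : Basis (Fin l) (MvPolynomial (Fin l) K) (LD A)) (c : ℕ → Fin l → MvPolynomial (Fin l) K)
    (hc : ∀ k, frob K l k = ∑ j, c k j • (b j : Fin l → MvPolynomial (Fin l) K))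
    {F : Type} [Field F] [Algebra K F] (x : Fin l → F) {m : ℕ} (d : Fin m → F) (i : Fin l) :
    ∑ k, d k * x i ^ (Fintype.card K ^ (k : ℕ)) =
      ∑ j, (∑ k : Fin m, d k * aeval x (c k j)) *
        aeval x ((b j : Fin l → MvPolynomial (Fin l) K) i) := by
  have h2 : ∀ k : Fin m, x i ^ (Fintype.card K ^ (k : ℕ)) =
      ∑ j, aeval x (c k j) * aeval x ((b j : Fin l → MvPolynomial (Fin l) K) i) := by
    intro k
    have h3 := congrArg (fun w : Fin l → MvPolynomial (Fin l) K => aeval x (w i)) (hc k)
    simp only [frob, map_pow, aeval_X] at h3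
    rw [h3, Finset.sum_apply, map_sum]
    refine Finset.sum_congr rfl fun j _ => ?_
    rw [Pi.smul_apply, smul_eq_mul, map_mul]
  simp only [h2, Finset.mul_sum]
  rw [Finset.sum_comm]
  refine Finset.sum_congr rfl fun j _ => ?_
  rw [Finset.sum_mul]
  exact Finset.sum_congr rfl fun k _ => by ring

/-- the relation at a generic point of a missed plane -/
theorem rel_missed {K : Type} [Field K] [Fintype K] {r : ℕ} {ν : Type} [Fintype ν]
    (A : ν → Fin (r + 2) → K)
    (b : Basis (Fin (r + 2)) (MvPolynomial (Fin (r + 2)) K) (LD A))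
    (c : ℕ → Fin (r + 2) → MvPolynomial (Fin (r + 2)) K)
    (hc : ∀ k, frob K (r + 2) k = ∑ j, c k j • (b j : Fin (r + 2) → MvPolynomial (Fin (r + 2)) K))
    {F : Type} [Field F] [Algebra K F] (x : Fin (r + 2) → F) (hAx : ∀ k, ∑ i, A k i • x i ≠ 0)
    (hfr : finrank K (Submodule.span K (Set.range x)) = r) :
    ∃ d : Fin (r + 1) → F, d ≠ 0 ∧ d (Fin.last r) ≠ 0 ∧
      ∀ j, ∑ k : Fin (r + 1), d k * aeval x (c k j) = 0 := by
  obtain ⟨d, hd0, hd⟩ := exists_rel x hfr
  have hlast : d (Fin.last r) ≠ 0 := by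
    intro h0
    have h1 : (fun k : Fin r => d (Fin.castSucc k)) ≠ 0 := by
      intro h
      apply hd0
      funext k
      refine Fin.lastCases ?_ (fun k => ?_) k
      · exact h0
      · exact congrFun h k
    have h2 := moo K F (r + 2) r x (fun k => d (Fin.castSucc k)) h1 (fun i => by
      have h3 := hd i
      rw [Fin.sum_univ_castSucc, h0, zero_mul, add_zero] at h3
      simpa using h3)
    omega
  refine ⟨d, hd0, hlast, ?_⟩
  have h1 : (fun j => ∑ k : Fin (r + 1), d k * aeval x (c k j)) = 0 := by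
    refine indep_eval A b x hAx _ fun i => ?_
    rw [← rel_iff A b c hc x d i]
    exact hd i
  exact fun j => congrFun h1 j

theorem aeval_lin {K : Type} [Field K] {l : ℕ} {F : Type} [CommRing F] [Algebra K F] (a : Fin l → K)
    (x : Fin l → F) : aeval x (lin a) = ∑ i, a i • x i := by
  unfold lin
  rw [map_sum]
  refine Finset.sum_congr rfl fun j _ => ?_
  rw [map_mul, aeval_C, aeval_X, Algebra.smul_def]

/-- homogeneous polynomials of degree one are linear forms -/
theorem exists_lin {K : Type} [Field K] {l : ℕ} (f : MvPolynomial (Fin l) K)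
    (hf : f.IsHomogeneous 1) : ∃ a : Fin l → K, f = lin a := by
  classical
  refine ⟨fun i => f.coeff (Finsupp.single i 1), ?_⟩
  ext m
  by_cases hm : m.degree = 1
  · obtain ⟨i, rfl⟩ : ∃ i, m = Finsupp.single i 1 := by
      have h1 : m.sum (fun _ n => n) = 1 := by
        rw [← hm]
        rfl
      exact (Finsupp.sum_eq_one_iff m).1 h1
    unfold lin
    rw [coeff_sum, Finset.sum_eq_single i]
    · rw [coeff_C_mul, coeff_X, if_pos rfl, mul_one]
    · intro j _ hj
      rw [coeff_C_mul, coeff_X, if_neg, mul_zero]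
      intro h
      exact hj ((Finsupp.single_left_inj one_ne_zero).1 h)
    · exact fun h => absurd (Finset.mem_univ _) h
  · rw [hf.coeff_eq_zero hm, (lin_hom _).coeff_eq_zero hm]

theorem hom_map {K : Type} [Field K] {m : ℕ} (h : Fin (m + 1) → K) (j : Fin (m + 1))
    (hj : h j ≠ 0) (ρ : MvPolynomial (Fin (m + 1)) K →ₐ[K] MvPolynomial (Fin m) K)
    (hρ : ∀ i, ρ (X (j.succAbove i)) = X i) (h0 : ρ (lin h) = 0)
    {f : MvPolynomial (Fin (m + 1)) K} {N : ℕ} (hf : f.IsHomogeneous N) :
    (ρ f).IsHomogeneous N := by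
  have hX : ∀ i, (ρ (X i)).IsHomogeneous 1 := by
    intro i
    rcases eq_or_ne i j with rfl | hij
    · have h1 : C (h i) * ρ (X i) = - ∑ k, C (h (i.succAbove k)) * X k := by
        unfold lin at h0
        rw [map_sum, Fin.sum_univ_succAbove _ i] at h0
        simp only [map_mul, hρ, algHom_C, algebraMap_eq] at h0
        exact eq_neg_of_add_eq_zero_left h0
      have h2 : ρ (X i) = C (h i)⁻¹ * (- ∑ k, C (h (i.succAbove k)) * X k) := by
        rw [← h1, ← mul_assoc, ← C_mul, inv_mul_cancel₀ hj, C_1, one_mul]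
      rw [h2]
      refine IsHomogeneous.C_mul ((homogeneousSubmodule (Fin m) K 1).neg_mem ?_) _
      exact IsHomogeneous.sum _ _ _ fun i _ => isHomogeneous_C_mul_X _ _
    · obtain ⟨k, rfl⟩ := Fin.exists_succAbove_eq hij
      rw [hρ]
      exact isHomogeneous_X _ _
  have h1 := hf.aeval (fun i => ρ (X i)) hX
  rw [one_mul] at h1
  rw [aeval_unique ρ]
  exact h1

theorem det_coef_hom {K : Type} [Field K] {l m : ℕ}
    (M : Matrix (Fin m) (Fin m) (MvPolynomial (Fin l) K)) (f g : Fin m → ℕ)
    (h0 : ∀ k j, f k < g j → M k j = 0) (h1 : ∀ k j, (M k j).IsHomogeneous (f k - g j))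
    (hM : M.det ≠ 0) :
    ∑ j, g j ≤ ∑ k, f k ∧ M.det.IsHomogeneous (∑ k, f k - ∑ j, g j) := by
  have hle : ∀ σ : Equiv.Perm (Fin m), ∏ j, M (σ j) j ≠ 0 → ∀ j, g j ≤ f (σ j) := by
    intro σ hσ j
    by_contra hcon
    push Not at hcon
    exact hσ (Finset.prod_eq_zero (Finset.mem_univ j) (h0 _ _ hcon))
  constructor
  · rw [Matrix.det_apply] at hM
    obtain ⟨σ, -, hσ⟩ := Finset.exists_ne_zero_of_sum_ne_zero hM
    have h2 : ∏ j, M (σ j) j ≠ 0 := by
      intro h
      rw [h, smul_zero] at hσ
      exact hσ rfl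
    rw [← Equiv.sum_comp σ f]
    exact Finset.sum_le_sum fun j _ => hle σ h2 j
  · rw [Matrix.det_apply]
    refine IsHomogeneous.sum _ _ _ fun σ _ => ?_
    have h2 : (∏ j, M (σ j) j).IsHomogeneous (∑ k, f k - ∑ j, g j) := by
      by_cases hσ : ∏ j, M (σ j) j = 0
      · rw [hσ]
        exact isHomogeneous_zero _ _ _
      · have h3 := IsHomogeneous.prod Finset.univ (fun j => M (σ j) j) (fun j => f (σ j) - g j)
          fun j _ => h1 (σ j) j
        rw [Finset.sum_tsub_distrib _ fun j _ => hle σ hσ j, Equiv.sum_comp σ f] at h3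
        exact h3
    rcases Int.units_eq_one_or (Equiv.Perm.sign σ) with h3 | h3
    · rw [h3, one_smul]
      exact h2
    · rw [h3, Units.neg_smul, one_smul]
      exact (homogeneousSubmodule (Fin l) K _).neg_mem h2

theorem li_X (K : Type) [Field K] (m : ℕ) :
    LinearIndependent K (fun i : Fin m => algebraMap (MvPolynomial (Fin m) K)
      (FractionRing (MvPolynomial (Fin m) K)) (X i)) := by
  have h3 : LinearIndependent K (X : Fin m → MvPolynomial (Fin m) K) := linearIndependent_X _ _
  exact h3.map' ((IsScalarTower.toAlgHom K (MvPolynomial (Fin m) K)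
    (FractionRing (MvPolynomial (Fin m) K))).toLinearMap)
    (LinearMap.ker_eq_bot.2 (IsFractionRing.injective _ _))

theorem span_pair_eq {K : Type} [Field K] {l : ℕ} (j : Fin l) (u v : Fin l → K) (hu : u j ≠ 0)
    (hv : v j = 0) (hv0 : v ≠ 0) (W : Submodule K (Fin l → K)) (hW : finrank K W ≤ 2)
    (h1 : u ∈ W) (h2 : v ∈ W) : W = Submodule.span K {u, v} := by
  have h3 : LinearIndependent K ![u, v] := by
    rw [LinearIndependent.pair_iff]
    intro s t hst
    have h4 := congrFun hst j
    rw [Pi.add_apply, Pi.smul_apply, Pi.smul_apply, hv, smul_zero, add_zero, smul_eq_mul,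
      Pi.zero_apply] at h4
    have hs : s = 0 := (mul_eq_zero.1 h4).resolve_right hu
    subst hs
    rw [zero_smul, zero_add] at hst
    exact ⟨rfl, (smul_eq_zero.1 hst).resolve_right hv0⟩
  have h5 := finrank_span_eq_card h3
  rw [Matrix.range_cons_cons_empty, Fintype.card_fin] at h5
  symm
  refine Submodule.eq_of_le_of_finrank_le (Submodule.span_le.2 ?_) (by rw [h5]; exact hW)
  intro y hy
  rcases hy with rfl | hy
  · exact h1
  · rw [Set.mem_singleton_iff.1 hy]
    exact h2

/-- evaluation at the classes of the variables -/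
theorem aeval_comp {K : Type} [Field K] {l : ℕ} {F : Type} [CommRing F] [Algebra K F]
    (g : MvPolynomial (Fin l) K →ₐ[K] F) (f : MvPolynomial (Fin l) K) :
    aeval (fun i => g (X i)) f = g f := by
  conv_rhs => rw [aeval_unique g]
  rfl

/-- **Module NC2.** -/
theorem nc2 : S_NC2 := by
  classical
  intro K _ _ l ν _ A e j₀ hl hq2 hA he hj
  obtain ⟨r, rfl⟩ : ∃ r, l = r + 2 := ⟨l - 2, by omega⟩
  rw [show r + 2 - 2 = r by omega] at hq2 hj
  obtain ⟨b, hb⟩ := he
  obtain ⟨c, hc1, hc2, hc3⟩ := cfs_hom A e b hb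
  have hq : 2 ≤ Fintype.card K := Fintype.one_lt_card
  have hsmall : ∀ k : ℕ, k < r → c k j₀ = 0 := by
    intro k hk
    refine hc2 k j₀ ?_
    have h1 : Fintype.card K ^ (k + 1) ≤ Fintype.card K ^ r := Nat.pow_le_pow_right (by omega) hk
    rw [pow_succ] at h1
    have h2 : Fintype.card K ^ k * 2 ≤ Fintype.card K ^ k * Fintype.card K :=
      Nat.mul_le_mul_left _ hq
    omega
  obtain ⟨rr, hrr⟩ : ∃ rr, c r j₀ = lin rr := exists_lin _ (by
    have h1 := hc3 r j₀
    rwa [show Fintype.card K ^ r - e j₀ = 1 by omega] at h1)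
  obtain ⟨D, hD⟩ : ∃ D, D = (Matrix.of fun (k j : Fin (r + 1)) => c k (j₀.succAbove j)).det :=
    ⟨_, rfl⟩
  have hDx : ∀ (F : Type) [Field F] [Algebra K F] (x : Fin (r + 2) → F),
      aeval x D = (Matrix.of fun (k j : Fin (r + 1)) => aeval x (c k (j₀.succAbove j))).det := by
    intro F _ _ x
    rw [hD, AlgHom.map_det]
    rfl
  have key : ∀ (F : Type) [Field F] [Algebra K F] (x : Fin (r + 2) → F),
      (∀ k, ∑ i, A k i • x i ≠ 0) → finrank K (Submodule.span K (Set.range x)) = r →
      aeval x (lin rr) = 0 ∧ aeval x D = 0 := by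
    intro F _ _ x hAx hfr
    obtain ⟨d, hd0, hlast, hrel⟩ := rel_missed A b c hc1 x hAx hfr
    constructor
    · have h1 := hrel j₀
      rw [Fin.sum_univ_castSucc] at h1
      have h2 : ∑ k : Fin r, d (Fin.castSucc k) * aeval x (c (Fin.castSucc k : Fin (r + 1)) j₀) = 0 :=
        Finset.sum_eq_zero fun k _ => by
          rw [Fin.val_castSucc, hsmall k k.isLt, map_zero, mul_zero]
      rw [h2, zero_add, Fin.val_last, hrr] at h1
      exact (mul_eq_zero.1 h1).resolve_left hlast
    · rw [hDx, ← Matrix.exists_vecMul_eq_zero_iff]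
      exact ⟨d, hd0, funext fun j => hrel _⟩
  have hmem : ∀ W : Submodule K (Fin (r + 2) → K), finrank K W = 2 → (∀ i, A i ∉ W) →
      rr ∈ W ∧ ¬ IsUnit D := by
    intro W hW hAW
    obtain ⟨F, _, _, x, hx⟩ := H83.TF.pnt K (r + 2) W
    have hfr : finrank K (Submodule.span K (Set.range x)) = r := by
      have := finrank_span W x hx
      omega
    obtain ⟨h1, h2⟩ := key F x (fun k h => hAW k ((hx _).1 h)) hfr
    rw [aeval_lin, hx] at h1
    exact ⟨h1, fun h => (h.map (aeval x)).ne_zero h2⟩
  by_cases hrr0 : rr = 0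
  · left
    have hzero : ∀ k : Fin (r + 1), c k j₀ = 0 := by
      intro k
      rcases Nat.lt_or_ge (k : ℕ) r with h | h
      · exact hsmall k h
      · have h5 : (k : ℕ) = r := by omega
        rw [h5, hrr, hrr0]
        simp [lin]
    have hunit : IsUnit D := by
      rw [hD]
      exact H39.TF.uni moo K (r + 1)
        (fun j => (b (j₀.succAbove j) : Fin (r + 2) → MvPolynomial (Fin (r + 2)) K))
        (fun k j => c k (j₀.succAbove j)) (fun k => by
          have h1 := hc1 k
          rw [Fin.sum_univ_succAbove _ j₀, hzero k, zero_smul, zero_add] at h1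
          exact h1)
    unfold uncD
    have : IsEmpty {W : Submodule K (Fin (r + 2) → K) // finrank K W = 2 ∧ ∀ i, A i ∉ W} :=
      ⟨fun W => (hmem W.1 W.2.1 W.2.2).2 hunit⟩
    exact Nat.card_of_isEmpty
  right
  obtain ⟨j, hj'⟩ : ∃ j, rr j ≠ 0 := Function.ne_iff.1 hrr0
  obtain ⟨ρ, hρ1, hρ2, hρ3, hρ4⟩ := sub K (r + 1) rr j hj'
  -- (a)
  have hρD : ρ D ≠ 0 := by
    intro h0
    let F := FractionRing (MvPolynomial (Fin (r + 1)) K)
    let g : MvPolynomial (Fin (r + 2)) K →ₐ[K] F :=
      (IsScalarTower.toAlgHom K (MvPolynomial (Fin (r + 1)) K) F).comp ρ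
    have hg : ∀ f, g f = algebraMap (MvPolynomial (Fin (r + 1)) K) F (ρ f) := fun f => rfl
    let x : Fin (r + 2) → F := fun i => g (X i)
    have hx : ∀ f, aeval x f = g f := fun f => aeval_comp g f
    have hdet : (Matrix.of fun (k j : Fin (r + 1)) => aeval x (c k (j₀.succAbove j))).det = 0 := by
      rw [← hDx, hx, hg, h0, map_zero]
    obtain ⟨d, hd0, hd⟩ := Matrix.exists_vecMul_eq_zero_iff.2 hdet
    have h1 := moo K F (r + 2) (r + 1) x d hd0 (fun i => by
      rw [rel_iff A b c hc1 x d i]
      refine Finset.sum_eq_zero fun j' _ => ?_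
      have h2 : ∑ k : Fin (r + 1), d k * aeval x (c k j') = 0 := by
        rcases eq_or_ne j' j₀ with rfl | hne
        · refine Finset.sum_eq_zero fun k _ => ?_
          rcases Nat.lt_or_ge (k : ℕ) r with h | h
          · rw [hsmall k h, map_zero, mul_zero]
          · have h5 : (k : ℕ) = r := by omega
            rw [h5, hrr, hx, hg, hρ2, map_zero, mul_zero]
        · obtain ⟨t, rfl⟩ := Fin.exists_succAbove_eq hne
          exact congrFun hd t
      rw [h2, zero_mul])
    have h3 : LinearIndependent K (fun i : Fin (r + 1) => x (j.succAbove i)) := by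
      have h4 := li_X K (r + 1)
      have h5 : (fun i : Fin (r + 1) => x (j.succAbove i)) =
          fun i : Fin (r + 1) => algebraMap (MvPolynomial (Fin (r + 1)) K) F (X i) := by
        funext i
        change g (X (j.succAbove i)) = _
        rw [hg, hρ1]
      rw [h5]
      exact h4
    have h4 := finrank_span_eq_card h3
    rw [Fintype.card_fin] at h4
    have : Module.Finite K (Submodule.span K (Set.range x)) :=
      Module.Finite.span_of_finite K (Set.finite_range x)
    have h5 : finrank K (Submodule.span K (Set.range fun i : Fin (r + 1) => x (j.succAbove i))) ≤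
        finrank K (Submodule.span K (Set.range x)) :=
      Submodule.finrank_mono (Submodule.span_mono (Set.range_comp_subset_range j.succAbove x))
    omega
  -- (b)
  have hp : ∀ W : Submodule K (Fin (r + 2) → K), finrank K W = 2 → (∀ i, A i ∉ W) →
      ∃ p : Fin (r + 1) → K, p ≠ 0 ∧ W = Submodule.span K {rr, j.insertNth (0 : K) p} ∧
        lin p ∣ ρ D := by
    intro W hW hAW
    have hrW := (hmem W hW hAW).1
    obtain ⟨w, hwW, hw⟩ : ∃ w ∈ W, w ∉ Submodule.span K {rr} := by
      by_contra hcon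
      push Not at hcon
      have h1 : W ≤ Submodule.span K {rr} := hcon
      have h2 := Submodule.finrank_mono h1
      rw [hW, finrank_span_singleton hrr0] at h2
      omega
    obtain ⟨w', hw'⟩ : ∃ w', w' = w - (w j * (rr j)⁻¹) • rr := ⟨_, rfl⟩
    have hw'W : w' ∈ W := by
      rw [hw']
      exact W.sub_mem hwW (W.smul_mem _ hrW)
    have hw'j : w' j = 0 := by
      rw [hw', Pi.sub_apply, Pi.smul_apply, smul_eq_mul, mul_assoc, inv_mul_cancel₀ hj', mul_one,
        sub_self]
    have hw'0 : w' ≠ 0 := by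
      intro h
      apply hw
      rw [Submodule.mem_span_singleton]
      rw [hw'] at h
      exact ⟨w j * (rr j)⁻¹, (sub_eq_zero.1 h).symm⟩
    obtain ⟨p, hpw⟩ : ∃ p : Fin (r + 1) → K, p = fun i => w' (j.succAbove i) := ⟨_, rfl⟩
    have hins : (j.insertNth (0 : K) p : Fin (r + 2) → K) = w' := by
      funext i
      rcases eq_or_ne i j with rfl | hij
      · rw [Fin.insertNth_apply_same, hw'j]
      · obtain ⟨k, rfl⟩ := Fin.exists_succAbove_eq hij
        rw [Fin.insertNth_apply_succAbove, hpw]
    have hp0 : p ≠ 0 := by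
      intro h
      apply hw'0
      rw [← hins, h]
      funext i
      rcases eq_or_ne i j with rfl | hij
      · rw [Fin.insertNth_apply_same, Pi.zero_apply]
      · obtain ⟨k, rfl⟩ := Fin.exists_succAbove_eq hij
        rw [Fin.insertNth_apply_succAbove, Pi.zero_apply, Pi.zero_apply]
    refine ⟨p, hp0, ?_, ?_⟩
    · rw [hins]
      exact span_pair_eq j rr w' hj' hw'j hw'0 W hW.le hrW hw'W
    obtain ⟨j', hj2⟩ : ∃ j', p j' ≠ 0 := Function.ne_iff.1 hp0
    obtain ⟨ρ', hρ'1, hρ'2, hρ'3, hρ'4⟩ := sub K r p j' hj2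
    refine hρ'4 _ ?_
    let F := FractionRing (MvPolynomial (Fin r) K)
    let g : MvPolynomial (Fin (r + 2)) K →ₐ[K] F :=
      (IsScalarTower.toAlgHom K (MvPolynomial (Fin r) K) F).comp (ρ'.comp ρ)
    have hg : ∀ f, g f = algebraMap (MvPolynomial (Fin r) K) F (ρ' (ρ f)) := fun f => rfl
    let x : Fin (r + 2) → F := fun i => g (X i)
    have hx : ∀ f, aeval x f = g f := fun f => aeval_comp g f
    have hlw : ρ (lin w') = lin p := by
      unfold lin
      rw [map_sum, Fin.sum_univ_succAbove _ j, hw'j, C_0, zero_mul, map_zero, zero_add]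
      refine Finset.sum_congr rfl fun i _ => ?_
      rw [map_mul, hρ1, algHom_C, algebraMap_eq, hpw]
    have hfin : Module.Finite K (Submodule.span K (Set.range x)) :=
      Module.Finite.span_of_finite K (Set.finite_range x)
    have h3 : LinearIndependent K (fun i : Fin r => x (j.succAbove (j'.succAbove i))) := by
      have h4 := li_X K r
      have h5 : (fun i : Fin r => x (j.succAbove (j'.succAbove i))) =
          fun i : Fin r => algebraMap (MvPolynomial (Fin r) K) F (X i) := by
        funext i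
        change g (X (j.succAbove (j'.succAbove i))) = _
        rw [hg, hρ1, hρ'1]
      rw [h5]
      exact h4
    have h4 := finrank_span_eq_card h3
    rw [Fintype.card_fin] at h4
    have h5 : finrank K (Submodule.span K
        (Set.range fun i : Fin r => x (j.succAbove (j'.succAbove i)))) ≤
        finrank K (Submodule.span K (Set.range x)) :=
      Submodule.finrank_mono (Submodule.span_mono
        (Set.range_comp_subset_range (fun i => j.succAbove (j'.succAbove i)) x))
    have h6 := LinearMap.finrank_range_add_finrank_ker (Fintype.linearCombination K x)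
    rw [Fintype.range_linearCombination K x, Module.finrank_fin_fun] at h6
    have h7 : LinearMap.ker (Fintype.linearCombination K x) = Submodule.span K {rr, w'} := by
      refine span_pair_eq j rr w' hj' hw'j hw'0 _ (by omega) ?_ ?_
      · rw [LinearMap.mem_ker, Fintype.linearCombination_apply, ← aeval_lin, hx, hg, hρ2, map_zero,
          map_zero]
      · rw [LinearMap.mem_ker, Fintype.linearCombination_apply, ← aeval_lin, hx, hg, hlw, hρ'2,
          map_zero]
    rw [← span_pair_eq j rr w' hj' hw'j hw'0 W hW.le hrW hw'W] at h7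
    have h8 : ∀ a : Fin (r + 2) → K, ∑ i, a i • x i = 0 ↔ a ∈ W := by
      intro a
      rw [← h7, LinearMap.mem_ker, Fintype.linearCombination_apply]
    have h9 : finrank K (Submodule.span K (Set.range x)) = r := by
      have := finrank_span W x h8
      omega
    have h10 := (key F x (fun k h => hAW k ((h8 _).1 h)) h9).2
    rw [hx, hg] at h10
    exact (map_eq_zero_iff _ (IsFractionRing.injective (MvPolynomial (Fin r) K) F)).1 h10
  -- (c)
  choose! P hP0 hPW hPD using hp
  have hfinite : Finite {W : Submodule K (Fin (r + 2) → K) // finrank K W = 2 ∧ ∀ i, A i ∉ W} :=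
    inferInstance
  have : Fintype {W : Submodule K (Fin (r + 2) → K) // finrank K W = 2 ∧ ∀ i, A i ∉ W} :=
    Fintype.ofFinite _
  have hdvd : ∏ W : {W : Submodule K (Fin (r + 2) → K) // finrank K W = 2 ∧ ∀ i, A i ∉ W},
      lin (P W.1) ∣ ρ D := by
    refine prod_lin_dvd Finset.univ
      (fun W : {W : Submodule K (Fin (r + 2) → K) // finrank K W = 2 ∧ ∀ i, A i ∉ W} => P W.1)
      (fun W => hP0 W.1 W.2.1 W.2.2) (fun W W' hne t ht => hne (Subtype.ext ?_))
      fun W _ => hPD W.1 W.2.1 W.2.2
    have h1 := hPW W.1 W.2.1 W.2.2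
    have h2 := hPW W'.1 W'.2.1 W'.2.2
    refine Submodule.eq_of_le_of_finrank_le ?_ (by rw [W.2.1, W'.2.1])
    rw [h1, Submodule.span_le]
    intro y hy
    rcases hy with rfl | hy
    · exact (hmem W'.1 W'.2.1 W'.2.2).1
    · rw [Set.mem_singleton_iff.1 hy]
      have h3 : (j.insertNth (0 : K) (P W.1) : Fin (r + 2) → K) =
          t • (j.insertNth (0 : K) (P W'.1) : Fin (r + 2) → K) := by
        funext i
        rcases eq_or_ne i j with rfl | hij
        · rw [Pi.smul_apply, Fin.insertNth_apply_same, Fin.insertNth_apply_same, smul_zero]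
        · obtain ⟨k, rfl⟩ := Fin.exists_succAbove_eq hij
          rw [Pi.smul_apply, Fin.insertNth_apply_succAbove, Fin.insertNth_apply_succAbove]
          exact congrFun ht k
      rw [h3]
      refine W'.1.smul_mem _ ?_
      have h4 : (j.insertNth (0 : K) (P W'.1) : Fin (r + 2) → K) ∈
          Submodule.span K {rr, (j.insertNth (0 : K) (P W'.1) : Fin (r + 2) → K)} :=
        Submodule.subset_span (Set.mem_insert_of_mem _ rfl)
      rw [← h2] at h4
      exact h4
  have hD0 : D ≠ 0 := by
    intro h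
    exact hρD (by rw [h, map_zero])
  obtain ⟨hle, hhom⟩ := det_coef_hom (Matrix.of fun (k j : Fin (r + 1)) => c k (j₀.succAbove j))
    (fun k => Fintype.card K ^ (k : ℕ)) (fun j => e (j₀.succAbove j))
    (fun k j h => hc2 _ _ h) (fun k j => hc3 _ _) (by rw [← hD]; exact hD0)
  rw [← hD] at hhom
  have hhom' := hom_map rr j hj' ρ hρ1 hρ2 hhom
  have hcard : uncD A ≤ ∑ k : Fin (r + 1), Fintype.card K ^ (k : ℕ) -
      ∑ j, e (j₀.succAbove j) := by
    obtain ⟨m, hm⟩ := hdvd
    have hprod : ∏ W : {W : Submodule K (Fin (r + 2) → K) // finrank K W = 2 ∧ ∀ i, A i ∉ W},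
        lin (P W.1) ≠ 0 :=
      Finset.prod_ne_zero_iff.2 fun W _ => lin_ne_zero (hP0 W.1 W.2.1 W.2.2)
    have hm0 : m ≠ 0 := by
      rintro rfl
      rw [mul_zero] at hm
      exact hρD hm
    have h1 := hhom'.totalDegree hρD
    have h2 : (∏ W : {W : Submodule K (Fin (r + 2) → K) // finrank K W = 2 ∧ ∀ i, A i ∉ W},
        lin (P W.1)).totalDegree = uncD A := by
      have h3 := IsHomogeneous.prod Finset.univ
        (fun W : {W : Submodule K (Fin (r + 2) → K) // finrank K W = 2 ∧ ∀ i, A i ∉ W} =>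
          lin (P W.1)) (fun _ => 1) fun W _ => lin_hom _
      rw [h3.totalDegree hprod]
      unfold uncD
      rw [Nat.card_eq_fintype_card]
      simp
    rw [hm, totalDegree_mul_of_isDomain hprod hm0, h2] at h1
    omega
  have hn := card_le A hA e b hb
  rw [Fin.sum_univ_succAbove _ j₀] at hn
  have hr1 : 1 ≤ r := by omega
  have hthr : thr (Fintype.card K) (r + 2) + 1 =
      ∑ k : Fin (r + 1), Fintype.card K ^ (k : ℕ) + Fintype.card K ^ r := by
    unfold thr
    rw [show r + 2 - 2 = r by omega, Fin.sum_univ_eq_sum_range (fun k => Fintype.card K ^ k),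
      Finset.sum_range_succ, Finset.range_eq_Ico, Finset.sum_eq_sum_Ico_succ_bot (by omega : 0 < r),
      pow_zero, zero_add]
    omega
  omega

end Pool.Agent.H22.TF
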